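import Pool.Agent.LPK.Stmts

/-!
Row CTR of the squad LPK (problem MP_37fa12_co): the contradiction.
-/

set_option autoImplicit false

open scoped RealInnerProductSpace

namespace Pool.Agent.LPK.H11

theorem pt_zero {n : ℕ} (b : Fin n → V n) : pt b 0 = 0 := by
  unfold pt
  exact Finset.sum_eq_zero fun i _ => by rw [Pi.zero_apply, Int.cast_zero, zero_smul]

theorem G_zero {n : ℕ} : G (0 : V n) = 1 := by
  unfold G
  rw [norm_zero]
  norm_num

theorem ind_true {p : Prop} (h : p) : ind p = 1 := by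
  unfold ind
  exact if_pos h

theorem cg_zero {n : ℕ} : Cg (0 : Fin n → ℤ) 0 := fun i => by
  rw [Pi.zero_apply, sub_zero]
  exact dvd_zero 2

theorem evn_zero {n : ℕ} : Evn (0 : Fin n → ℤ) := fun i => by
  rw [Pi.zero_apply]
  exact dvd_zero 2

theorem sg_zero {n : ℕ} : sg (0 : Fin n → ℤ) 0 = 1 := by
  unfold sg
  have h : (∑ i : Fin n, (0 : Fin n → ℤ) i * (0 : Fin n → ℤ) i) = 0 :=
    Finset.sum_eq_zero fun i _ => by rw [Pi.zero_apply, mul_zero]
  rw [h, Int.natAbs_zero, pow_zero]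

/-- **Row CTR**. -/
theorem ctr (_h1 : DuaStmt) (h2 : SplStmt) (h3 : FsmStmt) (h4 : TotStmt) (h5 : LinStmt) (h6 : PaiStmt) :
    CtrStmt := by
  intro n κ D μ ν hC b b' hD hb hb'
  obtain ⟨s1, s2, s3, s4, s5⟩ := h3 n κ D b b' hD
  have ht := h4 n κ D b b' hC.ev hD hC.evP hC.evQ hC.evg
  obtain ⟨l1, l2⟩ := h5 n κ D μ ν hC b b' hD hb hb'
  obtain ⟨p1, p2, p3⟩ := h6 n κ D μ ν hC b b' hD hb hb'
  refine h2 n (fLL D b) (fSS D b') (fLS κ D b b') (fL D b) (fS κ D b') (D.c0 n + bc D.ps + bc D.qs)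
    s1 s2 s3 s4 s5 ht ?_ l1 l2 p1 p2 p3
  have hc := hC.cst
  unfold CD.cst at hc
  have e1 : fLL D b (0, 0) = D.LL n 0 0 0 + D.C 0 0 := by
    unfold fLL
    rw [pt_zero, G_zero, norm_zero, inner_zero_left, ind_true cg_zero]
    norm_num
  have e2 : fSS D b' (0, 0) = D.SS n 0 0 0 + D.C' 0 0 := by
    unfold fSS
    rw [pt_zero, G_zero, norm_zero, inner_zero_left, ind_true cg_zero]
    norm_num
  have e3 : fLS κ D b b' (0, 0) = D.LS n κ 0 0 0 + 2 * rr n * D.X 0 0 := by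
    unfold fLS
    rw [pt_zero, pt_zero, G_zero, norm_zero, inner_zero_left, sg_zero]
    norm_num
  have e4 : fL D b 0 = D.f1 n 0 + 2 * D.as 0 := by
    unfold fL
    rw [pt_zero, G_zero, norm_zero, ind_true evn_zero]
    norm_num
  have e5 : fS κ D b' 0 = D.f1' n κ 0 + 2 * D.bt 0 := by
    unfold fS
    rw [pt_zero, G_zero, norm_zero, ind_true evn_zero]
    norm_num
  rw [e1, e2, e3, e4, e5]
  linarith

end Pool.Agent.LPK.H11
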